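import Pool.Agent.P.MP_5347d0_lc.CMMain
import Pool.Agent.P.MP_5347d0_lc.CMAb

open Pool.Agent.P.MP_5347d0_lc.CM

/-- One polynomial with integer coefficients defines the real elements in the ring of integers of
every subfield of the compositum of `Qcyc` (all roots of unity) and `Qtr` (all totally real
numbers); the question is the case `K = Qcyc`. -/
theorem Pool.Agent.Results.MP_5347d0_lc.AllCM.result :
    ∃ (n : ℕ) (F : MvPolynomial (Option (Fin n)) ℤ),
      ∀ K : IntermediateField ℚ ℂ, K ≤ Qcyc ⊔ Qtr → ∀ a : NumberField.RingOfIntegers K,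
        (((algebraMap (NumberField.RingOfIntegers K) K a : K) : ℂ).im = 0 ↔
          ∃ y : Fin n → NumberField.RingOfIntegers K,
            MvPolynomial.aeval (fun o : Option (Fin n) => o.elim a y) F = 0) :=
  sup_eq ▸ Pool.Agent.P.MP_5347d0_lc.CM.main

/-- The case of the question: the field generated by all roots of unity. -/
theorem Pool.Agent.Results.MP_5347d0_lc.AllCM.cyc_case :
    ∃ (n : ℕ) (F : MvPolynomial (Option (Fin n)) ℤ), ∀ a : NumberField.RingOfIntegers Qcyc,
      (((algebraMap (NumberField.RingOfIntegers Qcyc) Qcyc a : Qcyc) : ℂ).im = 0 ↔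
        ∃ y : Fin n → NumberField.RingOfIntegers Qcyc,
          MvPolynomial.aeval (fun o : Option (Fin n) => o.elim a y) F = 0) :=
  let ⟨n, F, h⟩ := Pool.Agent.Results.MP_5347d0_lc.AllCM.result
  ⟨n, F, h Qcyc le_sup_left⟩

/-- The case of the question without the Kronecker-Weber theorem. `M` is the maximal abelian
extension: it is generated by all subfields `K` that are algebraic and normal (each element is a
root of a nonzero rational polynomial whose complex roots all lie in `K`) and whose automorphisms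
commute. `M` contains `Qcyc` and lies in the compositum, so `result` applies to it. -/
theorem Pool.Agent.Results.MP_5347d0_lc.AllCM.ab_case :
    ∃ (n : ℕ) (F : MvPolynomial (Option (Fin n)) ℤ), ∀ M : IntermediateField ℚ ℂ,
      M = IntermediateField.adjoin ℚ {z : ℂ | ∃ K : IntermediateField ℚ ℂ, z ∈ K ∧
        (∀ u ∈ K, ∃ p : Polynomial ℚ, p ≠ 0 ∧ Polynomial.aeval u p = 0 ∧
          ∀ w : ℂ, Polynomial.aeval w p = 0 → w ∈ K) ∧
        ∀ (s t : K ≃+* K) (x : K), s (t x) = t (s x)} →
      Qcyc ≤ M ∧ M ≤ Qcyc ⊔ Qtr ∧ ∀ a : NumberField.RingOfIntegers M,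
        (((algebraMap (NumberField.RingOfIntegers M) M a : M) : ℂ).im = 0 ↔
          ∃ y : Fin n → NumberField.RingOfIntegers M,
            MvPolynomial.aeval (fun o : Option (Fin n) => o.elim a y) F = 0) :=
  let ⟨n, F, h⟩ := Pool.Agent.Results.MP_5347d0_lc.AllCM.result
  ⟨n, F, fun M e => ⟨e ▸ cyc_le_ab, e ▸ ab_le, h M (e ▸ ab_le)⟩⟩
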