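import Pool.Agent.P.MP_5347d0_lc.LdU

open Pool.Agent.P.MP_5347d0_lc.CM

/-- For every positive `N`, one polynomial with integer coefficients defines the real elements in
every ring `R` between the ring of integers `O_K` and `O_K[1/N]`, for every subfield `K` of `Qcyc`
(the field generated by all roots of unity). The question is the case `K = Qcyc`, `R = O_K`. -/
theorem Pool.Agent.Results.MP_5347d0_lc.AllLocal.result (N : ℕ) (hN : 0 < N) :
    ∃ (n : ℕ) (F : MvPolynomial (Option (Fin n)) ℤ),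
      ∀ K : IntermediateField ℚ ℂ, K ≤ Qcyc →
        ∀ R : Subring ℂ, (∀ z ∈ K, IsIntegral ℤ z → z ∈ R) →
          (∀ z ∈ R, z ∈ K ∧ ∃ k : ℕ, IsIntegral ℤ ((N : ℂ) ^ k * z)) → ∀ a : R,
            ((a : ℂ).im = 0 ↔ ∃ y : Fin n → R,
              MvPolynomial.aeval (fun o : Option (Fin n) => o.elim a y) F = 0) :=
  Pool.Agent.P.MP_5347d0_lc.All.uniform N hN.ne'

/-- The hypotheses hold for `K = Qcyc` and the ring generated by the integers of `Qcyc` and the
inverse of `N`; for `N = 1` this ring is the ring of the question. -/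
theorem Pool.Agent.Results.MP_5347d0_lc.AllLocal.cyc_case (N : ℕ) (hN : 0 < N) :
    ∃ (n : ℕ) (F : MvPolynomial (Option (Fin n)) ℤ), ∀ R : Subring ℂ,
      R = Subring.closure {z : ℂ | (z ∈ Qcyc ∧ IsIntegral ℤ z) ∨ z * N = 1} → ∀ a : R,
        ((a : ℂ).im = 0 ↔ ∃ y : Fin n → R,
          MvPolynomial.aeval (fun o : Option (Fin n) => o.elim a y) F = 0) :=
  let ⟨n, F, h⟩ := Pool.Agent.Results.MP_5347d0_lc.AllLocal.result N hN
  ⟨n, F, fun R e => h Qcyc le_rfl R
    (fun _ h1 h2 => e ▸ Subring.subset_closure (Or.inl ⟨h1, h2⟩))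
    fun _ hz => Pool.Agent.P.MP_5347d0_lc.Loc.mem_closure (e ▸ hz)⟩
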